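import Mathlib
import Pool.Agent.Helper30.CIR.Goals
import Pool.Agent.Helper57.RZ.T1

/-!
# Project CIR (MP_f32c9c_an), packet ITE: derivatives of the iterates along the flow
-/

set_option autoImplicit false

open Set Filter Topology MeasureTheory

open scoped ContDiff

namespace Pool.Agent.Helper48.CIR

open Pool.Agent.Helper56.RZ Pool.Agent.Helper30.CIR

theorem re_pos {c : ℝ} (hc : |c| ≤ 1 / 2) {z : ℂ} (hz : ‖z‖ ≤ 1) :
    1 + (c : ℂ) * z ∈ Complex.slitPlane := by
  left
  have h1 : |((c : ℂ) * z).re| ≤ 1 / 2 := by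
    refine (Complex.abs_re_le_norm _).trans ?_
    rw [norm_mul, Complex.norm_real, Real.norm_eq_abs]
    nlinarith [norm_nonneg z, abs_nonneg c]
  have h2 := (abs_le.1 h1).1
  rw [Complex.add_re, Complex.one_re]
  linarith

theorem hh_smooth {K : ℕ} {s : WithTop ℕ∞} {M : Set (E K)} {A : ℝ → E K → E K} {F : E K → ℂ}
    {om c : ℝ} (th : ℝ) (hs : s ≤ ∞) (h : Data s M A F om) (hc : |c| ≤ 1 / 2) :
    ContDiffOn ℝ s (hh A c om th F) M := by
  have h1 : ContDiffOn ℝ s (fun x => (Complex.log (1 + (c : ℂ) * F x)).im) M := by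
    intro x hx
    have h2 : ContDiffWithinAt ℝ s (fun x => 1 + (c : ℂ) * F x) M x :=
      contDiffWithinAt_const.add (contDiffWithinAt_const.mul (h.eig.1 x hx))
    have h3 : ContDiffAt ℝ s Complex.log (1 + (c : ℂ) * F x) := by
      have h4 : ContDiffAt ℂ s Complex.log (1 + (c : ℂ) * F x) :=
        Complex.contDiffAt_log (re_pos hc (h.le1 x hx))
      exact h4.restrict_scalars ℝ
    have h5 := h3.comp_contDiffWithinAt x h2
    exact (Complex.imCLM.contDiff (n := s)).contDiffAt.comp_contDiffWithinAt x h5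
  have h6 : ContDiffOn ℝ s (fun x => (th + del c om F x, x)) M := by
    refine ContDiffOn.prodMk ?_ contDiffOn_id
    refine contDiffOn_const.add ?_
    have h7 : ContDiffOn ℝ s
        (fun x => -(Complex.log (1 + (c : ℂ) * F x)).im / (Real.pi * om)) M :=
      h1.neg.div_const _
    refine h7.congr fun x hx => ?_
    simp only [del, Complex.log_im]
  exact h.flow.smooth.comp h6 fun x hx => ⟨mem_univ _, hx⟩

theorem hh_maps {K : ℕ} {s : WithTop ℕ∞} {M : Set (E K)} {A : ℝ → E K → E K} (F : E K → ℂ)
    (c om th : ℝ) (h : Flow s M A) : MapsTo (hh A c om th F) M M :=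
  fun x hx => h.maps _ hx

theorem gITE : StmtXF → StmtDER → Pool.Agent.Helper30.CIR.StmtITE := by
  intro hXF hDER K s M A f f' F om c th h1s hs hD hc hf hcom
  have t2 := Pool.Agent.Helper57.RZ.t2
  have hf1 : ContDiffOn ℝ 1 f M := hf.smooth.of_le h1s
  have hA : ∀ x ∈ M, der M f x (gen A x) = gen A (f x) := by
    intro x hx
    have h := ((hXF K s M A h1s hD.flow).2 x hx).2.2.1 f (f x) (fun t => t) 1 hf.maps hf1
      (hf.maps hx) (Eventually.of_forall fun t => hcom t x hx) (hasDerivAt_id _)
    rwa [one_smul] at h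
  refine ⟨hA, ?_⟩
  have hh1 : ContDiffOn ℝ 1 (hh A c om th F) M := (hh_smooth th hs hD hc).of_le h1s
  have hhm : MapsTo (hh A c om th F) M M := hh_maps F c om th hD.flow
  have hgm : MapsTo (gg f A c om th F) M M := hf.maps.comp hhm
  have hg1 : ContDiffOn ℝ 1 (gg f A c om th F) M := hf1.comp hh1 hhm
  have hg : ∀ x ∈ M, der M (gg f A c om th F) x (gen A x) =
      kap c F x • gen A (gg f A c om th F x) := by
    intro x hx
    have e := (t2 K M f (hh A c om th F) x hx).2.2.1 hhm
      (hh1.differentiableOn one_ne_zero x hx)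
      (hf1.differentiableOn one_ne_zero _ (hhm hx))
    have e2 := (hDER K s M A F om c th h1s hs hD hc).1 x hx
    have e3 : der M (gg f A c om th F) x (gen A x) =
        der M f (hh A c om th F x) (der M (hh A c om th F) x (gen A x)) := by
      unfold gg
      rw [e]
      rfl
    rw [e3, e2, map_smul, hA _ (hhm hx)]
    rfl
  have hit : ∀ n : ℕ, ContDiffOn ℝ 1 ((gg f A c om th F)^[n]) M := by
    intro n
    induction n with
    | zero => exact contDiffOn_id
    | succ n ih =>
      rw [Function.iterate_succ']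
      exact hg1.comp ih (hgm.iterate n)
  intro n
  induction n with
  | zero =>
    intro x hx
    have h3 : der M ((gg f A c om th F)^[0]) x = Pi M x := by
      rw [Function.iterate_zero]
      exact (t2 K M f f x hx).2.2.2.1
    rw [h3, ((hXF K s M A h1s hD.flow).2 x hx).2.1]
    simp
  | succ n ih =>
    intro x hx
    have hy : (gg f A c om th F)^[n] x ∈ M := hgm.iterate n hx
    have e := (t2 K M (gg f A c om th F) ((gg f A c om th F)^[n]) x hx).2.2.1 (hgm.iterate n)
      ((hit n).differentiableOn one_ne_zero x hx)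
      (hg1.differentiableOn one_ne_zero _ hy)
    have e3 : der M ((gg f A c om th F)^[n + 1]) x (gen A x) =
        der M (gg f A c om th F) ((gg f A c om th F)^[n] x)
          (der M ((gg f A c om th F)^[n]) x (gen A x)) := by
      rw [Function.iterate_succ', e]
      rfl
    rw [e3, ih x hx, map_smul, hg _ hy, smul_smul, Finset.prod_range_succ,
      Function.iterate_succ_apply']

end Pool.Agent.Helper48.CIR
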